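import Pool.Agent.Lib.MP_b1a3a4_al.MVS.LG.Iface

/-!
# FRN (12.6): non-trivial normal subgroups of non-abelian free groups are non-abelian
-/

set_option linter.all false

namespace Pool.Agent.Lib.MP_b1a3a4_al.MVS.LG.H34

open Pool.Agent.Lib.MP_b1a3a4_al.MVS.LG

/-- a commutative free group is cyclic -/
lemma exists_cyc (H : Type) [Group H] [IsFreeGroup H] (hc : ∀ a b : H, a * b = b * a) :
    ∃ c : H, ∀ x : H, ∃ n : ℤ, c ^ n = x := by
  classical
  let X := IsFreeGroup.Generators H
  let e : H ≃* FreeGroup X := (IsFreeGroup.toFreeGroup H)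
  have hX : ∀ x y : X, x = y := by
    intro x y
    have h1 : FreeGroup.of x * FreeGroup.of y = FreeGroup.of y * FreeGroup.of x := by
      apply e.symm.injective
      rw [map_mul, map_mul, hc]
    have h2 := congrArg FreeGroup.toWord h1
    by_contra hne
    have h3 : (FreeGroup.of x * FreeGroup.of y).toWord = [(x, true), (y, true)] := by
      show (FreeGroup.mk [(x, true), (y, true)]).toWord = _
      rw [FreeGroup.toWord_mk]
      simp [FreeGroup.reduce]
    have h4 : (FreeGroup.of y * FreeGroup.of x).toWord = [(y, true), (x, true)] := by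
      show (FreeGroup.mk [(y, true), (x, true)]).toWord = _
      rw [FreeGroup.toWord_mk]
      simp [FreeGroup.reduce]
    rw [h3, h4] at h2
    apply hne
    have h6 : x = y ∧ y = x := by simpa using h2
    exact h6.1
  have h5 : ∃ c : FreeGroup X, ∀ x : FreeGroup X, ∃ n : ℤ, c ^ n = x := by
    rcases isEmpty_or_nonempty X with hE | ⟨⟨x0⟩⟩
    · refine ⟨1, fun x => ⟨0, ?_⟩⟩
      have h6 : x ∈ Subgroup.closure (Set.range (FreeGroup.of : X → FreeGroup X)) := by
        rw [FreeGroup.closure_range_of]; trivial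
      have h7 : Set.range (FreeGroup.of : X → FreeGroup X) = ∅ := by
        rw [Set.range_eq_empty_iff]; exact hE
      rw [h7, Subgroup.closure_empty, Subgroup.mem_bot] at h6
      rw [h6, one_zpow]
    · refine ⟨FreeGroup.of x0, fun x => ?_⟩
      have h6 : x ∈ Subgroup.closure (Set.range (FreeGroup.of : X → FreeGroup X)) := by
        rw [FreeGroup.closure_range_of]; trivial
      have h7 : Set.range (FreeGroup.of : X → FreeGroup X) = {FreeGroup.of x0} := by
        ext y
        constructor
        · rintro ⟨x, rfl⟩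
          rw [hX x x0]; rfl
        · intro h
          exact ⟨x0, h.symm⟩
      rw [h7] at h6
      exact Subgroup.mem_zpowers_iff.1 (by rw [Subgroup.zpowers_eq_closure]; exact h6)
  obtain ⟨c, hcc⟩ := h5
  refine ⟨e.symm c, fun x => ?_⟩
  obtain ⟨n, hn⟩ := hcc (e x)
  exact ⟨n, by rw [← map_zpow, hn, MulEquiv.symm_apply_apply]⟩

/-- a subgroup of a free group whose elements commute is cyclic -/
lemma sub_cyc {F : Type} [Group F] [IsFreeGroup F] (N : Subgroup F)
    (hN : ∀ a ∈ N, ∀ b ∈ N, a * b = b * a) : ∃ c ∈ N, ∀ x ∈ N, ∃ n : ℤ, c ^ n = x := by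
  obtain ⟨c, hc⟩ := exists_cyc N (fun a b => Subtype.ext (hN a a.2 b b.2))
  refine ⟨c, c.2, fun x hx => ?_⟩
  obtain ⟨n, hn⟩ := hc ⟨x, hx⟩
  refine ⟨n, ?_⟩
  have h2 := congrArg Subtype.val hn
  simpa using h2

/-- roots are unique in free groups -/
lemma root_unique {F : Type} [Group F] [IsFreeGroup F] {a b : F} {n : ℕ} (hn : n ≠ 0)
    (h : a ^ n = b ^ n) : a = b := by
  let e := IsFreeGroup.toFreeGroup F
  apply e.injective
  have h2 : (e a) ^ n = (e b) ^ n := by rw [← map_pow, ← map_pow, h]
  exact (IsMulTorsionFree.pow_left_injective hn) h2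

lemma root_unique_z {F : Type} [Group F] [IsFreeGroup F] {a b : F} {n : ℤ} (hn : n ≠ 0)
    (h : a ^ n = b ^ n) : a = b := by
  have h0 : n.natAbs ≠ 0 := Int.natAbs_ne_zero.2 hn
  apply root_unique h0
  rcases Int.natAbs_eq n with h1 | h1
  · rw [h1, zpow_natCast, zpow_natCast] at h
    exact h
  · rw [h1, zpow_neg, zpow_neg, inv_inj, zpow_natCast, zpow_natCast] at h
    exact h

/-- elements that commute with a power commute with the element -/
lemma comm_of_zpow {F : Type} [Group F] [IsFreeGroup F] {b c : F} {q : ℤ} (hq : q ≠ 0)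
    (h : b * c ^ q = c ^ q * b) : b * c = c * b := by
  have h1 : (b * c * b⁻¹) ^ q = c ^ q := by
    rw [conj_zpow, h, mul_assoc, mul_inv_cancel, mul_one]
  have h2 := root_unique_z hq h1
  calc b * c = b * c * b⁻¹ * b := by group
    _ = c * b := by rw [h2]

/-- FRN (12.6) -/
theorem frn : FrnStatement := by
  intro F _ _ hF N hN hne
  by_contra hcon
  have hcomm : ∀ a ∈ N, ∀ b ∈ N, a * b = b * a := by
    intro a ha b hb
    by_contra h
    exact hcon ⟨a, ha, b, hb, h⟩
  obtain ⟨z, hz, hgen⟩ := sub_cyc N hcomm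
  have hz1 : z ≠ 1 := by
    intro h
    apply hne
    rw [eq_bot_iff]
    intro x hx
    obtain ⟨n, hn⟩ := hgen x hx
    rw [h, one_zpow] at hn
    rw [Subgroup.mem_bot, ← hn]
  -- `z` is central
  have hinj : ∀ m n : ℤ, z ^ m = z ^ n → m = n := by
    intro m n h
    by_contra hmn
    apply hz1
    have h3 : z ^ (m - n) = 1 ^ (m - n) := by
      rw [zpow_sub, h, mul_inv_cancel, one_zpow]
    exact root_unique_z (sub_ne_zero.2 hmn) h3
  have hcent : ∀ g : F, z * g = g * z := by
    intro g
    obtain ⟨k, hk⟩ := hgen _ (hN.conj_mem z hz g)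
    obtain ⟨l, hl⟩ := hgen _ (hN.conj_mem z hz g⁻¹)
    rw [inv_inv] at hl
    have h1 : z ^ (k * l) = z ^ (1 : ℤ) := by
      rw [zpow_mul, hk, conj_zpow, hl, zpow_one]
      group
    have h2 : k * l = 1 := hinj _ _ h1
    have h3 : k = 1 ∨ k = -1 := Int.eq_one_or_neg_one_of_mul_eq_one h2
    have h4 : g * (g * z * g⁻¹) * g⁻¹ = z := by
      rw [← hk, ← conj_zpow, ← hk, ← zpow_mul]
      rcases h3 with h3 | h3 <;> simp [h3]
    have h5 : z * g ^ (2 : ℤ) = g ^ (2 : ℤ) * z := by
      have h6 : z * g ^ (2 : ℤ) = (g * (g * z * g⁻¹) * g⁻¹) * g ^ (2 : ℤ) := by rw [h4]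
      rw [h6, zpow_two]
      group
    exact comm_of_zpow (by norm_num) h5
  obtain ⟨a, b, hab⟩ := hF
  apply hab
  obtain ⟨c, -, hc⟩ := sub_cyc (Subgroup.closure ({a, z} : Set F)) (by
    have hset : ∀ x ∈ ({a, z} : Set F), ∀ y ∈ ({a, z} : Set F), x * y = y * x := by
      intro x hx y hy
      simp only [Set.mem_insert_iff, Set.mem_singleton_iff] at hx hy
      rcases hx with rfl | rfl <;> rcases hy with rfl | rfl
      · rfl
      · exact (hcent _).symm
      · exact hcent _
      · rfl
    intro x hx y hy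
    exact Subgroup.closure_induction₂ (p := fun x y _ _ => x * y = y * x)
      (fun x y hx hy => hset x hx y hy)
      (fun x _ => by simp) (fun x _ => by simp)
      (fun x y u _ _ _ h1 h2 => by
        have h1' : Commute x u := h1
        have h2' : Commute y u := h2
        exact h1'.mul_left h2')
      (fun x y u _ _ _ h1 h2 => by
        have h1' : Commute u x := h1
        have h2' : Commute u y := h2
        exact h1'.mul_right h2')
      (fun x y _ _ h => by
        have h' : Commute x y := h
        exact h'.inv_left)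
      (fun x y _ _ h => by
        have h' : Commute x y := h
        exact h'.inv_right) hx hy)
  obtain ⟨p, hp⟩ := hc a (Subgroup.subset_closure (by simp))
  obtain ⟨q, hq⟩ := hc z (Subgroup.subset_closure (by simp))
  have hq0 : q ≠ 0 := by
    intro h
    apply hz1
    rw [← hq, h, zpow_zero]
  have h7 : b * c = c * b := comm_of_zpow hq0 (by rw [hq]; exact (hcent b).symm)
  have h8 : Commute b c := h7
  have h9 : Commute b (c ^ p) := h8.zpow_right p
  rw [← hp]
  exact h9.symm

end Pool.Agent.Lib.MP_b1a3a4_al.MVS.LG.H34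

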