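import Pool.Agent.Lib.MP_b1a3a4_al.MVS.LG.Iface

/-!
# SGAPI (12.5): the spectral gap for free actions of free groups of rank 2
-/

set_option linter.all false

namespace Pool.Agent.Lib.MP_b1a3a4_al.MVS.LG.H34

open Pool.Agent.Lib.MP_b1a3a4_al.MVS.LG

lemma head_mul (i : Bool) (x : FreeGroup Bool) :
    x.toWord.head? = some (i, false) ∨
      (FreeGroup.of i * x).toWord.head? = some (i, true) := by
  have h1 : FreeGroup.of i * x = FreeGroup.mk ((i, true) :: x.toWord) := by
    conv_lhs => rw [← FreeGroup.mk_toWord (x := x)]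
    rfl
  rw [h1, FreeGroup.toWord_mk, FreeGroup.reduce.cons, FreeGroup.reduce_toWord]
  cases x.toWord with
  | nil => right; rfl
  | cons hd tl =>
    by_cases h : i = hd.1 ∧ true = !hd.2
    · left
      obtain ⟨h2, h3⟩ := h
      have h4 : hd.2 = false := by
        cases h5 : hd.2 with
        | false => rfl
        | true => rw [h5] at h3; simp at h3
      rw [List.head?_cons, h2, ← h4]
    · right
      show (if i = hd.1 ∧ true = !hd.2 then tl else (i, true) :: hd :: tl).head? = _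
      rw [if_neg h]
      rfl

/-- existence of an equivariant map to the group -/
lemma exists_eqv {F Ω : Type} [Group F] (β : F →* Equiv.Perm Ω) (hβ : FreeAct β) :
    ∃ G : Ω → F, ∀ w ω, G (β w ω) = w * G ω := by
  let r : Setoid Ω :=
    { r := fun ω ω' => ∃ w, β w ω = ω'
      iseqv :=
        { refl := fun ω => ⟨1, by simp⟩
          symm := by
            rintro ω ω' ⟨w, h⟩
            exact ⟨w⁻¹, by rw [← h]; simp⟩
          trans := by
            rintro ω ω' ω'' ⟨w, h⟩ ⟨w', h'⟩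
            exact ⟨w' * w, by rw [← h', ← h]; simp⟩ } }
  have h1 : ∀ ω : Ω, ∃ w, β w (Quotient.mk r ω).out = ω := fun ω =>
    (Quotient.exact (Quotient.out_eq (Quotient.mk r ω)) : r.r _ _)
  choose G hG using h1
  refine ⟨G, fun w ω => ?_⟩
  have h2 : Quotient.mk r (β w ω) = Quotient.mk r ω :=
    (Quotient.sound (⟨w, rfl⟩ : r.r ω (β w ω))).symm
  have h3 := hG (β w ω)
  rw [h2] at h3
  have h4 : β (w * G ω) (Quotient.mk r ω).out = β w ω := by
    rw [map_mul, Equiv.Perm.mul_apply, hG]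
  have h5 : β ((w * G ω)⁻¹ * G (β w ω)) (Quotient.mk r ω).out = (Quotient.mk r ω).out := by
    rw [map_mul, Equiv.Perm.mul_apply, h3, ← h4, map_inv]
    exact Equiv.symm_apply_apply _ _
  have h6 := hβ _ _ h5
  exact (inv_mul_eq_one.1 h6).symm

/-- the basic estimate for one letter -/
lemma one_letter {Ω : Type} (σ : Equiv.Perm Ω) (p q : Ω → Prop) [DecidablePred p]
    [DecidablePred q] (h : ∀ ω, q ω ∨ p (σ ω)) (ξ : L2 Ω) :
    ‖ξ‖ ^ 2 ≤ (∑' ω, (if q ω then (ξ ω) ^ 2 else 0)) +
      (3 / 2) * (∑' ω, (if p ω then (ξ ω) ^ 2 else 0)) + 3 * ‖tr σ ξ - ξ‖ ^ 2 := by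
  have hs := ξ.summable
  have hs' := (tr σ ξ).summable
  have hd := (tr σ ξ - ξ).summable
  have ind : ∀ (f : Ω → ℝ) (hf : Summable f) (h0 : ∀ ω, 0 ≤ f ω) (P : Ω → Prop)
      [DecidablePred P], Summable (fun ω => if P ω then f ω else 0) := by
    intro f hf h0 P _
    refine Summable.of_nonneg_of_le (fun ω => ?_) (fun ω => ?_) hf
    · split_ifs
      · exact h0 ω
      · exact le_refl _
    · split_ifs
      · exact le_refl _
      · exact h0 ω
  have hq := ind _ hs (fun ω => sq_nonneg _) q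
  have hp := ind _ hs (fun ω => sq_nonneg _) p
  have hp' := ind _ hs' (fun ω => sq_nonneg _) p
  have hpd := ind _ hd (fun ω => sq_nonneg _) p
  have hpσ := ind _ hs (fun ω => sq_nonneg _) (fun ω => p (σ ω))
  have e1 : ‖ξ‖ ^ 2 ≤ (∑' ω, (if q ω then (ξ ω) ^ 2 else 0)) +
      ∑' ω, (if p (σ ω) then (ξ ω) ^ 2 else 0) := by
    rw [L2.norm_sq, ← hq.tsum_add hpσ]
    refine hs.tsum_le_tsum (fun ω => ?_) (hq.add hpσ)
    have h0 := sq_nonneg (ξ ω)
    rcases h ω with h1 | h1
    · rw [if_pos h1]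
      split_ifs <;> linarith
    · rw [if_pos h1]
      split_ifs <;> linarith
  have e2 : (∑' ω, (if p (σ ω) then (ξ ω) ^ 2 else 0)) =
      ∑' ω, (if p ω then (tr σ ξ ω) ^ 2 else 0) := by
    rw [← σ.tsum_eq (fun ω => if p ω then (tr σ ξ ω) ^ 2 else 0)]
    congr 1
    funext ω
    rw [tr_apply, Equiv.symm_apply_apply]
  have e3 : (∑' ω, (if p ω then (tr σ ξ ω) ^ 2 else 0)) ≤
      ∑' ω, ((3 / 2) * (if p ω then (ξ ω) ^ 2 else 0) +
        3 * (((tr σ ξ - ξ : L2 Ω)) ω) ^ 2) := by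
    refine hp'.tsum_le_tsum (fun ω => ?_) ((hp.mul_left _).add (hd.mul_left _))
    have hsub : (tr σ ξ - ξ : L2 Ω) ω = tr σ ξ ω - ξ ω := rfl
    rw [hsub]
    split_ifs
    · nlinarith [sq_nonneg (tr σ ξ ω - 3 / 2 * ξ ω)]
    · nlinarith [sq_nonneg (tr σ ξ ω - ξ ω)]
  have e4 : (∑' ω, ((3 / 2) * (if p ω then (ξ ω) ^ 2 else 0) +
        3 * (((tr σ ξ - ξ : L2 Ω)) ω) ^ 2)) =
      (3 / 2) * (∑' ω, (if p ω then (ξ ω) ^ 2 else 0)) + 3 * ‖tr σ ξ - ξ‖ ^ 2 := by
    rw [(hp.mul_left _).tsum_add (hd.mul_left _), tsum_mul_left, tsum_mul_left, L2.norm_sq]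
  linarith

/-- SGAPI (12.5) -/
theorem sgapi : SgapiStatement := by
  classical
  intro K Ω _ α hα a b hab
  set φ : FreeGroup Bool →* K := FreeGroup.lift (fun i : Bool => cond i a b) with hφ
  have hβ : FreeAct (α.comp φ) := by
    intro w ω h
    have h1 : φ w = 1 := hα _ ω h
    exact hab (by rw [← hφ, h1, map_one])
  obtain ⟨G, hG⟩ := exists_eqv (α.comp φ) hβ
  have hGi : ∀ (i : Bool) (ω : Ω), G (α (cond i a b) ω) = FreeGroup.of i * G ω := by
    intro i ω
    rw [← hG]
    congr 2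
    simp [hφ]
  refine ⟨1 / 6, by norm_num, fun ξ => ?_⟩
  have key : ∀ i : Bool, ‖ξ‖ ^ 2 ≤
      (∑' ω, (if (G ω).toWord.head? = some (i, false) then (ξ ω) ^ 2 else 0)) +
      (3 / 2) * (∑' ω, (if (G ω).toWord.head? = some (i, true) then (ξ ω) ^ 2 else 0)) +
      3 * ‖tr (α (cond i a b)) ξ - ξ‖ ^ 2 := by
    intro i
    refine one_letter (α (cond i a b)) (fun ω => (G ω).toWord.head? = some (i, true))
      (fun ω => (G ω).toWord.head? = some (i, false)) (fun ω => ?_) ξ
    show _ ∨ (G (α (cond i a b) ω)).toWord.head? = _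
    rw [hGi]
    exact head_mul i (G ω)
  have ka := key true
  have kb := key false
  simp only [cond_true, cond_false] at ka kb
  have hs := ξ.summable
  have ind : ∀ (P : Ω → Prop) [DecidablePred P],
      Summable (fun ω => if P ω then (ξ ω) ^ 2 else 0) := by
    intro P _
    refine Summable.of_nonneg_of_le (fun ω => ?_) (fun ω => ?_) hs
    · split_ifs
      · exact sq_nonneg _
      · exact le_refl _
    · split_ifs
      · exact le_refl _
      · exact sq_nonneg _
  have h1 := ind (fun ω => (G ω).toWord.head? = some (true, false))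
  have h2 := ind (fun ω => (G ω).toWord.head? = some (true, true))
  have h3 := ind (fun ω => (G ω).toWord.head? = some (false, false))
  have h4 := ind (fun ω => (G ω).toWord.head? = some (false, true))
  have tot : (∑' ω, (if (G ω).toWord.head? = some (true, false) then (ξ ω) ^ 2 else 0)) +
      (∑' ω, (if (G ω).toWord.head? = some (true, true) then (ξ ω) ^ 2 else 0)) +
      ((∑' ω, (if (G ω).toWord.head? = some (false, false) then (ξ ω) ^ 2 else 0)) +
      (∑' ω, (if (G ω).toWord.head? = some (false, true) then (ξ ω) ^ 2 else 0))) ≤ ‖ξ‖ ^ 2 := by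
    rw [L2.norm_sq, ← h1.tsum_add h2, ← h3.tsum_add h4, ← (h1.add h2).tsum_add (h3.add h4)]
    refine ((h1.add h2).add (h3.add h4)).tsum_le_tsum (fun ω => ?_) hs
    have h0 := sq_nonneg (ξ ω)
    rcases h5 : (G ω).toWord.head? with _ | ⟨u, v⟩
    · simp [h0]
    · cases u <;> cases v <;> simp
  have p1 : 0 ≤ (∑' ω, (if (G ω).toWord.head? = some (true, false) then (ξ ω) ^ 2 else 0)) :=
    tsum_nonneg (fun ω => by split_ifs; exact sq_nonneg _; exact le_refl _)
  have p3 : 0 ≤ (∑' ω, (if (G ω).toWord.head? = some (false, false) then (ξ ω) ^ 2 else 0)) :=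
    tsum_nonneg (fun ω => by split_ifs; exact sq_nonneg _; exact le_refl _)
  linarith

end Pool.Agent.Lib.MP_b1a3a4_al.MVS.LG.H34

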